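import Pool.Agent.N162.GP.Stm

/-!
Project GP (helper162), part TRS: the trace as a sum over the points of a fibre.
-/

set_option autoImplicit false

namespace Pool.Agent.N273.GP

theorem trs_ : Pool.Agent.N162.GP.StTRS := by
  classical
  intro L K K' Ω _ _ _ _ _ _ _ _ _ _ _ _ _ _ _ u hu0 hu σ
  let _ : Algebra L Ω := σ.toRingHom.toAlgebra
  have hσ : ∀ a : L, algebraMap L Ω a = σ a := fun a => rfl
  have : IsScalarTower ℂ L Ω := IsScalarTower.of_algebraMap_eq fun z => by
    rw [hσ, σ.commutes]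
  have : CharZero Ω := charZero_of_injective_algebraMap (algebraMap ℂ Ω).injective
  have : Algebra.IsSeparable L K' := Algebra.IsAlgebraic.isSeparable_of_perfectField
  let R : (K' →ₐ[L] Ω) → (K →ₐ[ℂ] Ω) := fun s =>
    (s.restrictScalars ℂ).comp (IsScalarTower.toAlgHom ℂ K K')
  have hR : ∀ (s : K' →ₐ[L] Ω) (b : K), R s b = s (algebraMap K K' b) := fun s b => rfl
  have hkey' : ∀ s₁ s₂ : K' →ₐ[L] Ω, R s₁ = R s₂ →
      ∀ v ∈ IntermediateField.adjoin L (Set.range (algebraMap K K')), s₁ v = s₂ v := by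
    intro s₁ s₂ h12 v hv
    induction hv using IntermediateField.adjoin_induction with
    | mem x hx =>
      obtain ⟨b, rfl⟩ := hx
      rw [← hR, ← hR, h12]
    | algebraMap x => rw [s₁.commutes, s₂.commutes]
    | add x y _ _ hx hy => rw [map_add, map_add, hx, hy]
    | inv x _ hx => rw [map_inv₀, map_inv₀, hx]
    | mul x y _ _ hx hy => rw [map_mul, map_mul, hx, hy]
  have hkey : ∀ s₁ s₂ : K' →ₐ[L] Ω, R s₁ = R s₂ → s₁ u = s₂ u := fun s₁ s₂ h =>
    hkey' s₁ s₂ h u hu
  have hne : Nonempty (K' →ₐ[L] Ω) := ⟨IsAlgClosed.lift⟩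
  refine ⟨Finset.univ.image R, fun ρ => ∑ s ∈ Finset.univ.filter (fun s => R s = ρ), s u,
    Finset.univ_nonempty.image R, ?_, ?_, ?_⟩
  · refine Finset.card_image_le.trans ?_
    rw [Finset.card_univ, AlgHom.card L K' Ω]
  · intro ρ hρ
    obtain ⟨s, -, hs⟩ := Finset.mem_image.1 hρ
    refine ⟨?_, s.restrictScalars ℂ, fun a => ?_, fun b => ?_⟩
    · have h1 : ∑ s' ∈ Finset.univ.filter (fun s' => R s' = ρ), s' u =
          ∑ _s' ∈ Finset.univ.filter (fun s' => R s' = ρ), s u :=
        Finset.sum_congr rfl fun s' hs' =>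
          hkey s' s ((Finset.mem_filter.1 hs').2.trans hs.symm)
      beta_reduce
      rw [h1, Finset.sum_const, nsmul_eq_mul]
      refine mul_ne_zero ?_ ((map_ne_zero s).2 hu0)
      have h2 : 0 < (Finset.univ.filter (fun s' => R s' = ρ)).card :=
        Finset.card_pos.2 ⟨s, Finset.mem_filter.2 ⟨Finset.mem_univ s, hs⟩⟩
      exact_mod_cast h2.ne'
    · rw [← hσ]
      exact s.commutes a
    · rw [← hs]
      rfl
  · intro b
    rw [← hσ, trace_eq_sum_embeddings Ω (K := L) (L := K'),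
      ← Finset.sum_fiberwise_of_maps_to (s := Finset.univ) (t := Finset.univ.image R) (g := R)
        (fun s _ => Finset.mem_image_of_mem R (Finset.mem_univ s))]
    refine Finset.sum_congr rfl fun ρ _ => ?_
    rw [Finset.sum_mul]
    refine Finset.sum_congr rfl fun s hs => ?_
    rw [map_mul, ← hR, (Finset.mem_filter.1 hs).2, mul_comm]

end Pool.Agent.N273.GP
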